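import Pool.Agent.MWA.Stmts

/-!
The one letter facts for `x² t x ≈ x² t x²`.
-/

set_option autoImplicit false

namespace Pool.Agent.MWA.H24

open Pool.Agent.Helper14_MV Pool.Agent.Helper2_MV Pool.Agent.MVO Pool.Agent.MWL Pool.Agent.MWS

theorem olr (hk : MWL.KeyStmt) (hl : MWL.LawStmt) (hn : MWS.NdnStmt) (hlr : MWS.LrnStmt) :
    OlrStmt := by
  intro β hA hR
  have hB : BaseR β := ⟨hA, hR⟩
  have h1 : ∀ θ : FIC, β ≤ θ → LR 1 (FC.ofFIC θ) := fun θ h => hlr β θ hB h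
  refine ⟨fun θ h hc k a b hab i hi hna => ?_, fun ρ σ τ υ r s t u nr ns nt c1 c2 k a b hab hj => ?_⟩
  · exact hk 1 (FC.ofFIC θ) (h1 θ h) (hn β θ hA h hc) k a b hab i hi hna
  · exact hl 1 (FC.ofFIC ρ) (FC.ofFIC σ) (FC.ofFIC τ) (FC.ofFIC υ) (h1 ρ r) (h1 σ s) (h1 τ t)
      (h1 υ u) (hn β ρ hA r nr) (hn β σ hA s ns) (hn β τ hA t nt) c1 c2 k a b hab hj

end Pool.Agent.MWA.H24
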