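import Pool.Agent.MWA.StmtsP

/-!
The one letter facts for `x² t x ≈ x² t x^(n+1)`.
-/

set_option autoImplicit false

namespace Pool.Agent.MWA.H24

open Pool.Agent.Helper14_MV Pool.Agent.Helper2_MV Pool.Agent.MVO Pool.Agent.MWL Pool.Agent.MWS

theorem mw_zero_sg (m : ℕ) : mw 0 (sg 0 m) = List.replicate m 0 := by
  simp [mw, asm, sg]

theorem mw_one_v2 (m : ℕ) : mw 1 (v2 2 m) = [0, 0, 2] ++ List.replicate m 0 := by
  simp [mw, asm, v2, List.replicate]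

theorem orn (hk : MWL.KeyStmt) (hl : MWL.LawStmt) (hn : NdqStmt) : OrnStmt := by
  intro n β hpos hap hC hR
  have h1 : ∀ θ : FIC, β ≤ θ → LR n (FC.ofFIC θ) := by
    intro θ h
    refine ⟨hpos, ?_, ?_⟩
    · show RR θ (mw 0 (sg 0 2)) (mw 0 (sg 0 (n + 2)))
      rw [mw_zero_sg, mw_zero_sg]
      exact h _ _ hap
    · show RR θ (mw 1 (v2 2 1)) (mw 1 (v2 2 (n + 1)))
      rw [mw_one_v2, mw_one_v2]
      exact h _ _ hR
  refine ⟨fun θ h hc k a b hab i hi hna => ?_, fun ρ σ τ υ r s t u nr ns nt c1 c2 k a b hab hj => ?_⟩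
  · exact hk n (FC.ofFIC θ) (h1 θ h) (hn β θ hC h hc) k a b hab i hi hna
  · exact hl n (FC.ofFIC ρ) (FC.ofFIC σ) (FC.ofFIC τ) (FC.ofFIC υ) (h1 ρ r) (h1 σ s) (h1 τ t)
      (h1 υ u) (hn β ρ hC r nr) (hn β σ hC s ns) (hn β τ hC t nt) c1 c2 k a b hab hj

end Pool.Agent.MWA.H24
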